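import Pool.Agent.BEI.Final

/-!
# Graded Betti numbers of binomial edge ideals of closed graphs

For every field `K` and every graph `G` on `{1, …, n}` whose labelling is closed, the graded
Betti numbers of `S/J_G` and of `S/in_<(J_G)` agree, where `<` is the lexicographic order with
`x_1 > … > x_n > y_1 > … > y_n`. This is the conjecture of Ene, Herzog and Hibi.

The idea: a weight filtration turns the Koszul complex of `S/J_G` into that of `S/in_<(J_G)`.
The Koszul homology of `S/in_<(J_G)` (an edge ideal of a bipartite graph) is spanned by products of
the classes `e_A ∧ d(e_B)` of complete bipartite blocks `A × B`, and each of these cycles is the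
leading form of a Koszul cycle of `S/J_G` of Eagon–Northcott type, on the clique `A ∪ B`.
Products of cycles are cycles, so every Koszul cycle of `S/in_<(J_G)` lifts and no cancellation
takes place.
-/

namespace Pool.Agent.BEI.Archive.ClosedGraphBetti

open Pool.Agent.BEI

/-- For a closed labelling of `G` and all `i, j`:
`β_{i,j}(S/J_G) = β_{i,j}(S/in_<(J_G))`, over every field. -/
theorem result (K : Type*) [Field K] (n : ℕ) (G : SimpleGraph (Fin n))
    (hG : IsClosedLabelling G) (i j : ℕ) :
    gradedBetti (binomialEdgeIdeal K G) i j =
      gradedBetti (initialIdeal (MonomialOrder.lex : MonomialOrder (Vars n))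
        (binomialEdgeIdeal K G)) i j :=
  gradedBetti_initialIdeal hG i j

end Pool.Agent.BEI.Archive.ClosedGraphBetti
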